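import Pool.Agent.Lib.MP_b5021c_nt.IfaceSF
import Pool.Agent.Lib.MP_b5021c_nt.B.H96.E3St

/-!
# Board b5, stage 3, chapter SF, row SF_NDZ: a mass without `w` and a mutual ray
-/

namespace Pool.Agent.B5.H36

open scoped LaurentPolynomial
open AddMonoidAlgebra Pool.Agent.B5.H71

set_option linter.unusedSectionVars false

section Gen

variable {O : Type} [CommRing O] [IsDomain O] [IsPrincipalIdealRing O] [Coef O] {L : Type}
  [AddCommGroup L] [Module.Free ℤ L] [Module.Finite ℤ L]

/-- Coefficients of a closed multi-affine element. -/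
theorem ndz_clc (k : L →+ ℤ) (S : L) (h : k S = 1) (eta : (RO O)ˣ) (D : AO O L)
    (hD : ∀ a ∈ supp D, k a = 0 ∨ k a = 1) (a : Ker k) :
    (cl k S h eta D).coeff a = D.coeff (a : L) + (eta : RO O) * D.coeff ((a : L) + S) := by
  have hdec := decomp k S h D hD
  have hV : cl k S h eta D = res (Ker k) D +
      cst (eta : RO O) * res (Ker k) (single (-S) 1 * D) := by
    conv_lhs => rw [hdec]
    rw [map_add, map_mul, cl_em, cl_em, cl_single, prj_self, h, zpow_one, one_mul]
    rfl
  rw [hV, coeff_add, Finsupp.add_apply, cst_mul_coeff, res_coeff, res_coeff,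
    coeff_single_mul_apply, one_mul, neg_neg, add_comm S]

end Gen

/-- The three identities for the coefficients. -/
theorem ndz_three {O : Type} [CommRing O] [IsDomain O] [IsPrincipalIdealRing O] [Coef O]
    {P L : Type} [Fintype P] [DecidableEq P] [AddCommGroup L] [Module.Free ℤ L]
    [Module.Finite ℤ L] {phi : L →+ (P → ℤ)} {D : AO O L} {S : L} {i0 : P} {eta : (RO O)ˣ}
    {h : co phi i0 S = 1} {c : RO O} {n : ℕ} {G : Fin n → AO O (Ker (co phi i0))} {l : Fin n}
    {b : Ker (co phi i0)} {j : P} {e : (RO O)ˣ} {hj : co (phK phi (co phi i0)) j b = 1}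
    {q : AO O (Ker (co (phK phi (co phi i0)) j))} {t : RO O}
    (hq : QC phi D S i0 eta h c n G l b j e hj q) (hqt : q = cst (c * (G l).coeff 0 * t)) :
    ∀ a : L, phi a i0 = 0 → phi a j = 0 →
      D.coeff a + (e : RO O) * D.coeff (a + (b : L)) =
        t * (D.coeff a + (eta : RO O) * D.coeff (a + S)) ∧
      (e : RO O) * (D.coeff (a + (b : L)) + (eta : RO O) * D.coeff (a + (b : L) + S)) =
        -(D.coeff a + (eta : RO O) * D.coeff (a + S)) := by
  intro a ha1 ha2
  have hD := hq.fd.cc.dd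
  set V' : AO O (Ker (co (phK phi (co phi i0)) j)) :=
    cst (c * (G l).coeff 0) * Uo phi i0 j G l with hV'
  have hprod : (∏ i ∈ Finset.univ.erase l, G i) =
      em (Ker (co (phK phi (co phi i0)) j)) (Uo phi i0 j G l) := by
    rw [Uo, map_prod]
    apply Finset.prod_congr rfl
    intro i hi
    rw [em_res (Ker (co (phK phi (co phi i0)) j)) (G i)]
    intro a ha
    exact hq.sp.other i (Finset.ne_of_mem_erase hi) a ha
  have hV : cl (co phi i0) S h eta D = (1 - single b ((e⁻¹ : (RO O)ˣ) : RO O)) *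
      em (Ker (co (phK phi (co phi i0)) j)) V' := by
    rw [hq.fd.eq, ← Finset.mul_prod_erase Finset.univ G (Finset.mem_univ l), hprod, hV', map_mul,
      em_cst, H71.cst_mul]
    conv_lhs => rw [hq.sp.eq]
    ring
  have hbinX : ∀ a ∈ supp (res (Ker (co phi i0)) D), co (phK phi (co phi i0)) j a = 0 ∨
      co (phK phi (co phi i0)) j a = 1 := fun a ha => hD.bin (a : L) ha j
  -- the exponent in the two kernels
  obtain ⟨a1, ha1d⟩ : ∃ a1 : Ker (co phi i0), (a1 : L) = a := ⟨⟨a, ha1⟩, rfl⟩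
  have h3 : co (phK phi (co phi i0)) j a1 = 0 := by
    change phi (a1 : L) j = 0
    rw [ha1d]
    exact ha2
  obtain ⟨a2, ha2d⟩ : ∃ a2 : Ker (co (phK phi (co phi i0)) j), (a2 : Ker (co phi i0)) = a1 :=
    ⟨⟨a1, h3⟩, rfl⟩
  have hem : (em (Ker (co (phK phi (co phi i0)) j)) V').coeff a1 = V'.coeff a2 := by
    have h1 := em_coeff (Ker (co (phK phi (co phi i0)) j)) V' a2
    rw [ha2d] at h1
    exact h1
  have e0 : (cl (co phi i0) S h eta D).coeff a1 = V'.coeff a2 := by
    rw [hV, sub_mul, one_mul, coeff_sub, Finsupp.sub_apply, coeff_single_mul_apply,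
      em_coeff_not (Ker (co (phK phi (co phi i0)) j)) V' (-b + a1), mul_zero, sub_zero]
    · exact hem
    · intro h2
      rw [mem_Ker, map_add, map_neg, hj] at h2
      omega
  have e1 : (cl (co phi i0) S h eta D).coeff (a1 + b) =
      -(((e⁻¹ : (RO O)ˣ) : RO O) * V'.coeff a2) := by
    have h4 : -b + (a1 + b) = a1 := by abel
    rw [hV, sub_mul, one_mul, coeff_sub, Finsupp.sub_apply, coeff_single_mul_apply,
      em_coeff_not (Ker (co (phK phi (co phi i0)) j)) V' (a1 + b), zero_sub, h4, hem]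
    intro h2
    rw [mem_Ker, map_add, hj] at h2
    omega
  have e2 : (Xl phi D i0 b j hj e).coeff a2 = t * V'.coeff a2 := by
    have h1 : Xl phi D i0 b j hj e = cst t * V' := by
      rw [hq.xe, hqt, hV', H71.cst_mul (c * (G l).coeff 0) t]
      ring
    rw [h1, H71.cst_mul_coeff]
  have f0 := ndz_clc (co phi i0) S h eta D (fun a ha => hD.bin a ha i0) a1
  have f1 := ndz_clc (co phi i0) S h eta D (fun a ha => hD.bin a ha i0) (a1 + b)
  have f2 := ndz_clc (co (phK phi (co phi i0)) j) b hj e (res (Ker (co phi i0)) D) hbinX a2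
  have f3 : (Xl phi D i0 b j hj e).coeff a2 = D.coeff a + (e : RO O) * D.coeff (a + (b : L)) := by
    change (cl (co (phK phi (co phi i0)) j) b hj e (res (Ker (co phi i0)) D)).coeff a2 = _
    rw [f2, res_coeff, res_coeff, ha2d, ← ha1d]
    rfl
  have f0' : V'.coeff a2 = D.coeff a + (eta : RO O) * D.coeff (a + S) := by
    rw [← e0, f0, ha1d]
  have f1' : D.coeff (a + (b : L)) + (eta : RO O) * D.coeff (a + (b : L) + S) =
      -(((e⁻¹ : (RO O)ˣ) : RO O) * V'.coeff a2) := by
    rw [← e1, f1, ← ha1d]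
    rfl
  refine ⟨by rw [← f3, e2, f0'], ?_⟩
  rw [f1', mul_neg, Units.mul_inv_cancel_left, f0']

/-- Row SF_NDZ. -/
theorem ndz (hF1 : F1S) (hM : McoS) : NdzS := by
  intro O _ _ _ _ P L _ _ _ _ _ phi D S i0 eta h c n G l b j e hj q t S1 e1 hq hqt hmut
  have hD := hq.fd.cc.dd
  have h3 := ndz_three hq hqt
  obtain ⟨hdis, hm1, hm2, -⟩ := hM O P L phi D S S1 eta e1 hD.inj hD.bin hmut
  by_cases ht1 : t = 1
  · exact Or.inl ht1
  right
  have hi0 : phi S i0 = 1 := h
  have hv0 := hq.fd.cc.v0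
  have ht0 : t ≠ 0 := by
    intro h0
    apply hq.q0
    rw [hqt, h0, mul_zero, cst, single_zero]
  have z0 : ∀ i, phi (0 : L) i = 0 := fun i => by rw [map_zero]; rfl
  obtain ⟨x0, y0⟩ := h3 0 (z0 i0) (z0 j)
  rw [zero_add, zero_add] at x0 y0
  by_cases hDb : D.coeff (b : L) = 0
  · left
    rw [hDb, mul_zero, add_zero] at x0
    exact x0
  by_cases hDbS : D.coeff ((b : L) + S) = 0
  · right
    rw [hDbS, mul_zero, add_zero] at y0
    linear_combination x0 - y0
  exfalso
  have bb : Bin phi (b : L) := hD.bin _ hDb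
  have bS : Bin phi S := hD.bin _ hq.fd.cc.ray.1
  have bbS := hD.bin _ hDbS
  have b1 : Bin phi S1 := hD.bin _ hmut.r1.1
  have disb : ∀ i, phi (b : L) i = 0 ∨ phi S i = 0 := by
    intro i
    have q1 := bb i
    have q2 := bS i
    have q3 := bbS i
    simp only [map_add, Pi.add_apply] at q3
    omega
  have hS1i : phi S1 i0 = 0 := by
    rcases hdis i0 with h5 | h5
    · omega
    · exact h5
  have hb0 : (b : L) ≠ 0 := by
    intro h5
    have : b = 0 := Subtype.ext h5
    rw [this, map_zero] at hj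
    exact zero_ne_one hj
  -- the coefficient of `S1` dies in the closing
  have hS1 : D.coeff S1 + (eta : RO O) * D.coeff (S1 + S) = 0 := by
    have h5 : (e1 : RO O) * (D.coeff S1 + (eta : RO O) * D.coeff (S1 + S)) = 0 := by
      rw [add_comm S1 S]
      linear_combination hm1 + hm2
    exact (mul_eq_zero.mp h5).resolve_left e1.ne_zero
  -- (A)
  have hjS1 : phi S1 j = 0 := by
    by_contra h5
    have h6 : phi S1 j = 1 := (b1 j).resolve_left h5
    have hbj : phi (b : L) j = 1 := hq.sp.bj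
    obtain ⟨x1, y1⟩ := h3 (S1 - (b : L))
      (by rw [map_sub, Pi.sub_apply, hS1i]; have : phi (b : L) i0 = 0 := b.2; omega)
      (by rw [map_sub, Pi.sub_apply, h6, hbj, sub_self])
    rw [sub_add_cancel, hS1, mul_zero] at y1
    have hz : D.coeff (S1 - (b : L)) + (eta : RO O) * D.coeff (S1 - (b : L) + S) = 0 := by
      rw [← neg_eq_zero]
      exact y1.symm
    rw [sub_add_cancel, hz, mul_zero] at x1
    have hne : D.coeff (S1 - (b : L)) ≠ 0 := by
      intro h7
      rw [h7, zero_add] at x1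
      exact (mul_ne_zero e.ne_zero hmut.r1.1) x1
    obtain ⟨-, hS10, lam, hlam, hpos⟩ := hmut.r1
    by_cases h8 : (b : L) = S1
    · -- `b = S1`
      rw [h8, hS1, mul_zero] at y0
      apply hv0
      rw [← neg_eq_zero]
      exact y0.symm
    · have h9 : 0 < lam (b : L) := hpos _ hDb hb0 h8
      have h10 : 0 < lam (S1 - (b : L)) := hpos _ hne (sub_ne_zero.mpr (Ne.symm h8)) (by
        intro h11
        exact hb0 (sub_eq_self.mp h11))
      rw [map_sub, hlam] at h10
      omega
  -- (B)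
  obtain ⟨x1, y1⟩ := h3 S1 hS1i hjS1
  rw [hS1, mul_zero] at x1
  rw [hS1, neg_zero] at y1
  have hne : D.coeff (S1 + (b : L)) ≠ 0 := by
    intro h7
    rw [h7, mul_zero, add_zero] at x1
    exact hmut.r1.1 x1
  have bb1 := hD.bin _ hne
  have disb1 : ∀ i, phi (b : L) i = 0 ∨ phi S1 i = 0 := by
    intro i
    have q1 := bb i
    have q2 := b1 i
    have q3 := bb1 i
    simp only [map_add, Pi.add_apply] at q3
    omega
  have y1' : D.coeff (S1 + (b : L)) + (eta : RO O) * D.coeff (S1 + (b : L) + S) = 0 :=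
    (mul_eq_zero.mp y1).resolve_left e.ne_zero
  -- (C)
  have c1 : (e : RO O) * (D.coeff (b : L) + (e1 : RO O) * D.coeff ((b : L) + S1)) =
      (t - 1) * (D.coeff 0 + (eta : RO O) * D.coeff S) := by
    rw [add_comm (b : L) S1]
    linear_combination x0 + (e1 : RO O) * x1 - hm1
  have c2 : (e : RO O) * (eta : RO O) *
      (D.coeff ((b : L) + S) + (e1 : RO O) * D.coeff ((b : L) + S + S1)) =
      -(t * (D.coeff 0 + (eta : RO O) * D.coeff S)) := by
    have h5 : (b : L) + S + S1 = S1 + (b : L) + S := by abel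
    rw [h5]
    linear_combination y0 - x0 + (e : RO O) * (e1 : RO O) * y1' - (e1 : RO O) * x1 + hm1
  have m1 : (b : L) ∈ US e1 S1 D := by
    by_contra h5
    have h6 := (hF1 O P L phi D S1 e1 hD.inj hD.bin b1 hmut.r1.2.1 _ h5).2 disb1
    rw [h6, mul_zero] at c1
    exact (mul_ne_zero (sub_ne_zero.mpr ht1) hv0) c1.symm
  have m2 : (b : L) + S ∈ US e1 S1 D := by
    by_contra h5
    have h6 := (hF1 O P L phi D S1 e1 hD.inj hD.bin b1 hmut.r1.2.1 _ h5).2 (by
      intro i
      have q1 := disb1 i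
      have q2 := hdis i
      simp only [map_add, Pi.add_apply]
      omega)
    rw [h6, mul_zero] at c2
    exact (neg_ne_zero.mpr (mul_ne_zero ht0 hv0)) c2.symm
  apply hmut.m1
  have h5 := Submodule.sub_mem _ m2 m1
  rwa [add_sub_cancel_left] at h5

end Pool.Agent.B5.H36
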